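import Pool.Agent.Y136.MG.Final

/-!
# MP_8ac872_ag: the Tate conjecture for all powers of almost all closed fibres follows from the
# Tate conjecture for all powers of the generic fibre, for every connected monodromy group

Let `X_i → S`, `i` in a finite set, be smooth projective families over a variety over a finite field
of characteristic `p`, let `G` be a maximal compact subgroup of the algebraic group over the complex
numbers defined by the action of the arithmetic fundamental group of `S` on the cohomology of the
generic fibres (with the Frobenius endomorphisms normalised by half Tate twists), and suppose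
that `G` is connected. There is **no condition on the group `G`**: symplectic, orthogonal, unitary,
exceptional, products of such groups and tori are allowed, and the classes fixed by `G` may need
generators of any degree.

If the Tate conjecture holds for the generic fibres of all products of copies of the families (the
classes fixed by `G` are algebraic), then for almost all closed points `s` of `S` the Tate
conjecture, and the semisimplicity of the eigenvalue `q ^ n` of Frobenius on the cohomology of
degree `2 n`, hold in all codimensions for **all products** of copies of the fibres `X_{i, s}`, over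
an algebraic closure of the finite field, although these fibres have many more Tate classes.

Almost all is meant for every sequence (filter) of probability measures on the set of the points
for which the conjugacy classes of the normalised Frobenius elements are equidistributed in `G`: by
Deligne this holds for the points with coordinates in the field with `p ^ m` elements, as `m` tends
to infinity (in the mean over the degrees `≤ m` if the geometric and the arithmetic monodromy
groups are different).
-/

open CategoryTheory AlgebraicGeometry MeasureTheory Filter Topology

universe u v

namespace Pool.Agent.Results.MP_8ac872_ag.AlmostAllFibres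

open Pool.Agent.H914 Pool.Agent.W534 Pool.Agent.Y136 VarClass Obj WeilCohomology

/-- **For almost all fibres the Tate conjecture for all products of copies of the fibres follows
from the Tate conjecture for the products of copies of the generic fibres, for every connected
monodromy group.** -/
theorem result {k : Type u} [Field k] {𝒱 : VarClass k} {ops : CycleOps 𝒱}
    (W : WeilCohomology.{u, v} ops) (σ : W.K ≃+* ℂ) (p : ℕ) (hp : p.Prime) (Φ : FrobSystem W p)
    {G : Type} [Group G] [TopologicalSpace G] [IsTopologicalGroup G] [CompactSpace G]
    [ConnectedSpace G] [MeasurableSpace G] [BorelSpace G] (μ : Measure G)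
    [μ.IsHaarMeasure] [IsProbabilityMeasure μ] (T : Subgroup G) (hT : IsMaximalTorus T)
    {I : Type} [Fintype I] {J : I → Type} [∀ i, Fintype (J i)] [∀ i, DecidableEq (J i)]
    (deg : ∀ i, J i → ℕ) (ρ : ∀ i, G →* Matrix (J i) (J i) ℂ) (hρ : IsGradedRep deg ρ)
    (D : ℕ) (hD : 0 < D) {S : Type} [MeasurableSpace S] [DiscreteMeasurableSpace S]
    (X : S → I → 𝒱.Obj) (b : ∀ s i, Module.Basis (J i) W.K (W.H (X s i)))
    (hX : ∀ s, IsMonodromy W σ deg ρ (X s) (b s))
    (m : S → ℕ) (hm : ∀ s, 0 < m s) (θ : S → G) (fr : ∀ s i, X s i ⟶ X s i)
    (hF : ∀ s i, IsFrobenius Φ σ D (m s) (fr s i) (deg i) (b s i) (ρ i (θ s)))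
    {ι : Type} (l : Filter ι) (ν : ι → Measure S) [∀ j, IsProbabilityMeasure (ν j)]
    (hν : ∀ f : C(G, ℝ), (∀ g h, f (h * g * h⁻¹) = f g) →
      Tendsto (fun j => ∫ s, f (θ s) ∂(ν j)) l (𝓝 (∫ g, f g ∂μ))) :
    Tendsto (fun j => ν j {s | ¬ ∀ Z, IsProductOf (Set.range (X s)) Z →
      ∀ n, SemisimpleTateIn Φ Z n}) l (𝓝 0) :=
  almost_all_fibres W σ p hp Φ μ T hT deg ρ hρ D hD m θ X fr b
    (fun s => isFibre_of (hm s) (hX s) (hF s)) l ν hν

end Pool.Agent.Results.MP_8ac872_ag.AlmostAllFibres
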