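import Pool.Agent.Y101.Th.Core
import Pool.Agent.Y101.Th.CycMain

/-!
# The Tate conjecture for divisors over finite fields and systems of bilinear equations
-/

set_option autoImplicit false

open CategoryTheory AlgebraicGeometry Pool.Agent.Y116.UV Pool.Agent.Y101.Th

namespace Pool.Agent.Results.MP_8ac872_ag.BilinearEquations

variable {k G Ω : Type} [Field k] [Group G] [Field Ω]

/-- **The Tate conjecture for divisors over finite fields and bilinear equations.** Let `k` be a finite
field with Frobenius `φ`. The Tate conjecture for divisors (with the multiplicity) is true for all smooth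
projective varieties over `k` if and only if, for all systems `B` of bilinear equations
`∑_{j, l} t_ijl y_j z_l = 0` over `k` with at most four variables `y` or at most four variables `z` and
for all `i`, the generalised eigenspace for the eigenvalue one of the Frobenius on the Borel-Moore
homology `H_{2 i}(B, ℚ_ℓ(i))` consists of combinations of cycle classes. Over a prime field the systems
with coefficients `0` and `1` and with four variables `z` are sufficient. -/
theorem result [Finite k] (T : PureHomology k G Ω) (φ : G) (hT : IsPureCore T)
    (hφ : IsGenerator T φ) (hK : DivisorsKnown T φ) :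
    (TateDivisors T φ ↔
      ∀ (a b c : ℕ) (t : Fin a → Fin b → Fin c → k), (b ≤ 4 ∨ c ≤ 4) →
        ∀ i, GenAlg T φ (bilS t) i) ∧
    ((Nat.card k).Prime → (TateDivisors T φ ↔
      ∀ (a b : ℕ) (t : Fin a → Fin b → Fin 4 → k), (∀ i j l, t i j l = 0 ∨ t i j l = 1) →
        ∀ i, GenAlg T φ (bilS t) i)) := by
  have key : ∀ X : Sch k, (∀ i, GenAlg T φ X i) ↔ StrongTate T X := fun X =>
    forall_congr' fun i => gen_iff hT hφ X i
  have h1 : TateDivisors T φ ↔
      ∀ X : Sch k, SmProj X → topologicalKrullDim X.left ≤ (2 : ℕ) → StrongTate T X := by
    rw [← hK.surfaces]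
    constructor
    · intro h X hX hd
      rw [← key]
      intro i
      by_cases hi : i = 1
      · rw [hi]
        exact h X hX hd
      · exact hK.low X hX hd i hi
    · intro h X hX hd
      exact (key X).mpr (h X hX hd) 1
  refine ⟨?_, fun hk => ?_⟩
  · rw [h1, core_dim hT 2]
    simp only [key]
  · rw [h1, core_dim_frac (RX.isFrac_of_surj (int_surj hk)) hT 2]
    simp only [key]

end Pool.Agent.Results.MP_8ac872_ag.BilinearEquations
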