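import Pool.Agent.Y134.CH.Base
import Pool.Agent.Y134.CH.Datum

/-!
The Tate conjecture for divisors over a finite field on varieties with an action of a finite group,
with the parity of the multiplicities.

In `D`, `S` is the set of points of a smooth projective variety `X` over an algebraic closure of a
finite field with `Q` elements, `F` its Frobenius map, `G` a finite group acting on `X`, `V` the
second cohomology of `X` with the actions `φ` of Frobenius and `σ` of `G`, and `b` is the form given
by the cup product (and an invariant ample class), `W` is the sum of the cohomology groups of odd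
degree, `c m` the contribution of the cohomology groups on which `G` acts trivially, and we have the
Lefschetz trace formula for the compositions of the iterates of Frobenius and the elements of `G`.

For a subgroup `K` of `G` and a character `χ ≠ 1` of `K` of `p`-power order let `U` be the open part
of `X / K` given by the points `x` with `χ` trivial on the stabilizer of `x`. The zeta function of
`U` modulo `p` bounds the multiplicities of the eigenvalues `Q η`, `η` of `p`-power order, on the
part of `χ`. For characters with values `± 1` the multiplicity of `Q` is one less if the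
determinant is negative: then one factor `1 - Q T` of the zeta function modulo `2` does not give a
Tate class.
-/

set_option autoImplicit false

open Polynomial Pool.Agent.Y134.PG Pool.Agent.Y134.CH

namespace Pool.Agent.Results.MP_8ac872_ag.ParityForGroupActions

theorem result {E : Type} [Field E] [CharZero E] [IsAlgClosed E] (D : Datum E) (Q : ℕ)
    (hQ : Q ≠ 0) (b : D.V →ₗ[E] D.V →ₗ[E] E) (B : IsForm D.σ D.φ Q b)
    -- the pairs of a subgroup and a character of prime power order
    {ι : Type} (P : ι → Pair D) (hP : Detects P) :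
    -- the multiplicities over the extensions of `p`-power degree
    (∀ i e n, ¬ (P i).Pole Q (e + 1) →
      ∑ η ∈ nthRootsFinset ((P i).p ^ n) (1 : E), (P i).mult (Q * η) ≤ e) ∧
    -- the parity
    (∀ i, (P i).IsReal → (P i).det = (-1) ^ (P i).mult (-Q) * Q ^ (P i).dim ∧
      (P i).dim % 2 = ((P i).mult Q + (P i).mult (-Q)) % 2) ∧
    (∀ i e, (P i).IsReal → (P i).p = 2 → ¬ (P i).Pole Q (e + 1) →
      (P i).det ≠ Q ^ (P i).dim → (P i).mult Q + 1 ≤ e) ∧
    -- the Tate classes over the base field
    ((∀ i, ¬ (P i).Pole Q 1 ∨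
      ((P i).IsReal ∧ (P i).p = 2 ∧ ¬ (P i).Pole Q 2 ∧ (P i).det ≠ Q ^ (P i).dim)) →
      D.φ.maxGenEigenspace Q ≤ D.σ.invariants) := by
  classical
  have hQE : (Q : E) ≠ 0 := Nat.cast_ne_zero.2 hQ
  have h1 : ∀ i e n, ¬ (P i).Pole Q (e + 1) →
      ∑ η ∈ nthRootsFinset ((P i).p ^ n) (1 : E), (P i).mult (Q * η) ≤ e := by
    intro i e n he
    obtain ⟨P₁, P₂, P₃, B₁, B₂, e1, e2, e3, e4, e5⟩ := (P i).zeta
    have h2 := sum_mult_le (P i).prime D.inj D.equivariant D.fix_finite D.σ D.φ D.commV D.τ D.ψ
      D.commW D.c D.trace (P i).K (P i).χ (P i).order (P i).ne_one (P i).primitive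
      P₁ P₂ P₃ (coeff_zero_of_prod e1) (coeff_zero_of_prod e2) B₁ B₂ e1 e2 e3 e4 (P i).H
      e5 Q one_pos (fun h => (P i).prime.one_lt.ne' (Nat.dvd_one.1 h)) (ζ := (1 : E))
      IsPrimitiveRoot.one (e := e) (by rw [cyc_one_dvd]; exact he) n
    refine le_of_eq_of_le (Finset.sum_congr rfl fun η _ => ?_) h2
    rw [one_mul]
    rfl
  have h2 : ∀ i, (P i).IsReal → (P i).det = (-1) ^ (P i).mult (-Q) * Q ^ (P i).dim ∧
      (P i).dim % 2 = ((P i).mult Q + (P i).mult (-Q)) % 2 := by
    intro i hi
    let b' : (P i).part →ₗ[E] (P i).part →ₗ[E] E :=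
      b.compl₁₂ (P i).part.subtype (P i).part.subtype
    exact sim_parity (B := b')
      (fun x hx => part_nondeg D.σ (P i).K (P i).χ hi B.nondeg B.invariant x hx)
      (fun x y => B.symm _ _) hQE (fun x y => B.similitude _ _)
  have h3 : ∀ i e, (P i).IsReal → (P i).p = 2 → ¬ (P i).Pole Q (e + 1) →
      (P i).det ≠ Q ^ (P i).dim → (P i).mult Q + 1 ≤ e := by
    intro i e hi hi2 he hdi
    have h4 := h1 i e 1 he
    have h5 := (h2 i hi).1
    have h6 : 1 ≤ (P i).mult (-Q) := by
      by_contra hlt
      have h7 : (P i).mult (-Q) = 0 := by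
        omega
      rw [h7, pow_zero, one_mul] at h5
      exact hdi h5
    have hne : (1 : E) ≠ -1 := by
      intro h
      have h1 : (2 : E) = 0 := by linear_combination h
      exact two_ne_zero h1
    have hsub : ({1, -1} : Finset E) ⊆ nthRootsFinset ((P i).p ^ 1) (1 : E) := by
      intro x hx
      rw [hi2, mem_nthRootsFinset (by norm_num)]
      rw [Finset.mem_insert, Finset.mem_singleton] at hx
      rcases hx with rfl | rfl <;> norm_num
    have h8 := (Finset.sum_le_sum_of_subset (f := fun η => (P i).mult ((Q : E) * η)) hsub).trans h4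
    rw [Finset.sum_pair hne, mul_one, mul_neg, mul_one] at h8
    omega
  refine ⟨h1, h2, h3, fun hcond => ?_⟩
  refine transfer_zero D.σ D.φ D.commV (fun i => (P i).K) (fun i => (P i).χ) hP _
    (maxGen_stable D.σ D.φ D.commV _) fun i => ?_
  refine inf_part_eq_bot D.σ D.φ D.commV (P i).K (P i).χ _ ?_
  change (P i).mult Q = 0
  rcases hcond i with hi | ⟨hi1, hi2, hi3, hi4⟩
  · have h4 := h1 i 0 0 (by rwa [zero_add])
    rw [pow_zero] at h4
    have h5 : (1 : E) ∈ nthRootsFinset 1 (1 : E) := by
      rw [mem_nthRootsFinset one_pos, pow_one]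
    have h6 := (Finset.single_le_sum (f := fun η => (P i).mult ((Q : E) * η))
      (fun _ _ => Nat.zero_le _) h5).trans h4
    rw [mul_one] at h6
    omega
  · have h4 := h3 i 1 hi1 hi2 hi3 hi4
    omega

end Pool.Agent.Results.MP_8ac872_ag.ParityForGroupActions
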