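import Pool.Agent.Y160.T2.FinMain

/-!
# The Tate conjecture for divisors for a positive proportion of the surfaces
# `w ^ q = (x ^ M + τ) ^ m - ρ ^ m + (β + c t ^ (p ^ d)) ^ q` over every large finite field

Let `p` be a prime, `q` a power of `p`, `m ≥ 1` prime to `p`, and `N ≠ p` an odd prime. Let `F` be a finite
field which contains the roots of unity of order `q` and `N` and a primitive `m`-th root of unity `z`
such that `-1`, `z` and the differences of the powers of `z` are `p`-th powers in `F`. (Every finite
field of characteristic prime to `p m N` has a finite extension `F₀` such that all its finite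
extensions `F` have these properties.) For a quadruple `v = (τ, ρ, β, c)` in `F ^ 4` let `X_{d,e}` be the
surface

  `w ^ q = (x ^ M + τ) ^ m - ρ ^ m + (β + c t ^ (p ^ d)) ^ q`,  `M = N ^ e`,  `d ≥ 1`,  `e ≥ 0`,

and `J` the Jacobian of its generic fibre over the line with coordinate `t`; its dimension is
`(q - 1) (m M - 1) / 2`.

Theorem. If `F` is sufficiently large (in terms of `p`, `q`, `m`, `N`), then for at least the proportion

  `1 / (16 m p ^ m N ^ (2 m))`

of the quadruples `v` in `F ^ 4` the following holds for ALL extensions `F'` of `F` of degree prime to
`p N`, all `d ≥ 1` and all `e ≥ 0`: the affine surface `X_{d,e}` is smooth, the `p`-primary part of the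
Tate-Shafarevich group of `J` over `F'(t)` is zero, and `J(F'(t))` has a basis at `p` with exactly
`(m - 1) (q - 1)` elements.

Consequence. By the theorems of Artin, Tate, Milne (and Kato, Trihan) the question of this problem has the answer
yes for a smooth projective model `Y` of `X_{d,e}` over `F'`, for every prime `ℓ`: the classes of the
divisors span the invariants, and their dimension is the multiplicity of `|F'|` as a root of the
characteristic polynomial `Q_2(Y, T)`; the order of the `L`-function of `J` over `F'(t)` is
`(m - 1) (q - 1)` for all these `F'`, `d`, `e`. The geometric genus is unbounded for each quadruple, the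
rank is unbounded when `m` or `q` grows, and the fibrations are not isotrivial for `e ≥ 1`, `m ≥ 2` and
`τ ≠ 0`.

Method: the descent of `J` by `1 - ζ` is controlled by the functions on the branch curve whose divisors
are divisible by `p`, and these by conditions on `p`-th and `N`-th power residues in `F`, which do not
depend on `d` and `e` and persist under extensions of degree prime to `p N` (norms). Character sums
give the proportion.
-/

set_option autoImplicit false

namespace Pool.Agent.Results.MP_8ac872_ag.PositiveProportionKummer

open Pool.Agent.Y160.SL

theorem result {p s m N : ℕ} (hp : p.Prime) (hm : 0 < m) (hcop : p.Coprime m) (hN : N.Prime)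
    (hN2 : N ≠ 2) (hNp : N ≠ p) : ∃ B : ℕ, ∀ (F : Type) [Field F] [Finite F] (ζ z : F),
    B < Nat.card F → N ∣ Nat.card F - 1 → IsPrimitiveRoot ζ (p ^ (s + 1)) → RootData p m z →
      Nat.card F ^ 4 ≤ 16 * m * p ^ m * N ^ (2 * m) *
        {v : Fin 4 → F | ∀ (F' : Type) [Field F'] [Algebra F F'] [FiniteDimensional F F'],
          (p * N).Coprime (Module.finrank F F') →
            GoodQuad p (p ^ (s + 1)) m N F' (fun i => algebraMap F F' (v i))}.ncard :=
  Pool.Agent.Y160.T2.fin_prop hp hm hcop hN hN2 hNp

end Pool.Agent.Results.MP_8ac872_ag.PositiveProportionKummer
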